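import Mathlib

set_option autoImplicit false

namespace Pool.Agent.Results.MP_46a474_nt.AffineCounterexample

open Polynomial

/-- An affine `p`-polynomial of degree `p ^ 3` over a finite field of characteristic `p` is never
irreducible. -/
theorem affine_not_irreducible {K : Type*} [Field K] [Finite K] (p n : ℕ) [Fact p.Prime]
    [CharP K p] (hn : Nat.card K = p ^ n) (A a c : K) (hA : A ≠ 0) :
    ¬ Irreducible (C A * X ^ (p ^ 3) + X ^ p - C a * X + C c : K[X]) := by
  intro hg
  have hp : p.Prime := Fact.out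
  set g : K[X] := C A * X ^ (p ^ 3) + X ^ p - C a * X + C c with hgdef
  have hp1 : 1 < p := hp.one_lt
  have hp3 : p < p ^ 3 := by
    calc p = p ^ 1 := (pow_one p).symm
      _ < p ^ 3 := Nat.pow_lt_pow_right hp1 (by norm_num)
  have hdeg : g.natDegree = p ^ 3 := by
    have h1 : (C A * X ^ (p ^ 3) : K[X]).natDegree = p ^ 3 := natDegree_C_mul_X_pow _ _ hA
    have h2 : (X ^ p - C a * X + C c : K[X]).natDegree < p ^ 3 := by
      refine lt_of_le_of_lt ?_ hp3
      refine (natDegree_add_le _ _).trans (max_le ?_ (by simp))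
      refine (natDegree_sub_le _ _).trans (max_le (by simp) ?_)
      exact ((natDegree_C_mul_le a X).trans natDegree_X_le).trans hp1.le
    have h3 : g = C A * X ^ (p ^ 3) + (X ^ p - C a * X + C c) := by rw [hgdef]; ring
    rw [h3, natDegree_add_eq_left_of_natDegree_lt (by rw [h1]; exact h2), h1]
  have : Fact (Irreducible g) := ⟨hg⟩
  let E := AdjoinRoot g
  have hg0 : g ≠ 0 := hg.ne_zero
  have : Module.Finite K E := (AdjoinRoot.powerBasis hg0).finite
  have : Finite E := Module.finite_of_finite K
  have : CharP E p := charP_of_injective_algebraMap (algebraMap K E).injective p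
  let : Algebra (ZMod p) E := ZMod.algebra E p
  let θ : E := AdjoinRoot.root g
  have hcardE : Nat.card E = Nat.card K ^ (p ^ 3) := by
    rw [Module.natCard_eq_pow_finrank (K := K) (V := E),
      (AdjoinRoot.powerBasis hg0).finrank, AdjoinRoot.powerBasis_dim, hdeg]
  -- the Frobenius of `E` over the prime field
  let φ : E →ₗ[ZMod p] E := (frobenius E p).toAddMonoidHom.toZModLinearMap p
  have hφ : ∀ x, φ x = x ^ p := fun x => rfl
  have hφn : ∀ (k : ℕ) (x : E), (φ ^ k) x = x ^ (p ^ k) := by
    intro k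
    induction k with
    | zero => intro x; simp
    | succ k ih =>
      intro x
      rw [pow_succ', Module.End.mul_apply, ih, hφ, ← pow_mul, ← pow_succ]
  let σ : Module.End (ZMod p) E := φ ^ n
  have hσ : ∀ x, σ x = x ^ (Nat.card K) := fun x => by rw [hn]; exact hφn n x
  have hσk : ∀ (k : ℕ) (x : E), (σ ^ k) x = x ^ (Nat.card K ^ k) := by
    intro k
    induction k with
    | zero => intro x; simp
    | succ k ih =>
      intro x
      rw [pow_succ', Module.End.mul_apply, ih, hσ, ← pow_mul, ← pow_succ]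
  let D : Module.End (ZMod p) E := σ - 1
  have hchar : CharP (Module.End (ZMod p) E) p := by
    have : Nontrivial E := inferInstance
    exact charP_of_injective_algebraMap (R := ZMod p)
      (FaithfulSMul.algebraMap_injective (ZMod p) (Module.End (ZMod p) E)) p
  have hD : ∀ k : ℕ, D ^ (p ^ k) = σ ^ (p ^ k) - 1 := by
    intro k
    have := sub_pow_char_pow_of_commute (p := p) (n := k) (Commute.one_right σ)
    rw [one_pow] at this
    exact this
  have hpowcard : ∀ x : E, x ^ Nat.card E = x := by
    intro x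
    have : Fintype E := Fintype.ofFinite E
    rw [Nat.card_eq_fintype_card, FiniteField.pow_card]
  have hσ3 : σ ^ (p ^ 3) = 1 := by
    ext x
    rw [hσk, ← hcardE]
    rw [hpowcard]; rfl
  have hDnil : D ^ (p ^ 3) = 0 := by rw [hD, hσ3, sub_self]
  -- the additive polynomial
  let L : E →ₗ[ZMod p] E :=
    (LinearMap.mulLeft (ZMod p) (algebraMap K E A)) ∘ₗ (φ ^ 3) + φ
      - LinearMap.mulLeft (ZMod p) (algebraMap K E a)
  have hL : ∀ x, L x = algebraMap K E A * x ^ (p ^ 3) + x ^ p - algebraMap K E a * x := by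
    intro x
    simp only [L, LinearMap.sub_apply, LinearMap.add_apply, LinearMap.comp_apply,
      LinearMap.mulLeft_apply]
    rw [hφn, hφ]
  have hKq : ∀ y : K, (algebraMap K E y) ^ (Nat.card K) = algebraMap K E y := by
    intro y
    have : Fintype K := Fintype.ofFinite K
    rw [← map_pow, Nat.card_eq_fintype_card, FiniteField.pow_card]
  have hLσ : ∀ x, L (σ x) = σ (L x) := by
    intro x
    have hmul : ∀ u v : E, σ (u * v) = σ u * σ v := fun u v => by
      rw [hσ, hσ, hσ, mul_pow]
    have hpow : ∀ (u : E) (k : ℕ), σ (u ^ k) = (σ u) ^ k := fun u k => by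
      rw [hσ, hσ, ← pow_mul, ← pow_mul, mul_comm]
    have hc : ∀ y : K, σ (algebraMap K E y) = algebraMap K E y := fun y => by
      rw [hσ, hKq]
    rw [hL, hL, map_sub, map_add, hmul, hpow, hpow, hmul, hc, hc]
  have hLθ : L θ = - algebraMap K E c := by
    have h0 : AdjoinRoot.mk g g = 0 := AdjoinRoot.mk_self
    have h1 : aeval θ (C A * X ^ (p ^ 3) + X ^ p - C a * X + C c : K[X]) = 0 := by
      change aeval (AdjoinRoot.root g) g = 0
      rw [AdjoinRoot.aeval_eq]; exact h0
    simp only [map_add, map_sub, map_mul, aeval_C, map_pow, aeval_X] at h1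
    rw [hL]
    exact eq_neg_of_add_eq_zero_left h1
  -- the kernel
  let V : Submodule (ZMod p) E := LinearMap.ker L
  have hVσ : ∀ x ∈ V, σ x ∈ V := by
    intro x hx
    rw [LinearMap.mem_ker] at hx ⊢
    rw [hLσ, hx, map_zero]
  have hVD : ∀ x ∈ V, D x ∈ V := by
    intro x hx
    exact V.sub_mem (hVσ x hx) hx
  have hVcard : Nat.card V ≤ p ^ 3 := by
    classical
    let h : E[X] := C (algebraMap K E A) * X ^ (p ^ 3) + X ^ p - C (algebraMap K E a) * X
    have hAE : algebraMap K E A ≠ 0 := by simpa using hA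
    have hdegh : h.natDegree ≤ p ^ 3 := by
      refine (natDegree_sub_le _ _).trans (max_le ?_ ?_)
      · refine (natDegree_add_le _ _).trans (max_le (natDegree_C_mul_X_pow_le _ _) ?_)
        simpa using hp3.le
      · exact ((natDegree_C_mul_le _ X).trans natDegree_X_le).trans (Nat.one_le_pow _ _ hp.pos)
    have hh0 : h ≠ 0 := by
      intro h0
      have : h.coeff (p ^ 3) = 0 := by rw [h0]; simp
      have e1 : p ^ 3 ≠ p := hp3.ne'
      have e2 : ¬ (1 = p ^ 3) := by
        intro h; have := Nat.one_lt_pow (n := 3) (by norm_num) hp1; omega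
      simp only [h, coeff_sub, coeff_add, coeff_C_mul, coeff_X_pow, coeff_X, if_true, e1, e2,
        if_false] at this
      simp at this
      exact hA this
    have hsub : (V : Set E) ⊆ (h.roots.toFinset : Set E) := by
      intro x hx
      have hx' : L x = 0 := hx
      rw [Finset.mem_coe, Multiset.mem_toFinset, mem_roots hh0, IsRoot.def]
      rw [hL] at hx'
      simpa [h] using hx'
    calc Nat.card V = (V : Set E).ncard := rfl
      _ ≤ (h.roots.toFinset : Set E).ncard := Set.ncard_le_ncard hsub (Finset.finite_toSet _)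
      _ = h.roots.toFinset.card := Set.ncard_coe_finset _
      _ ≤ h.roots.card := Multiset.toFinset_card_le _
      _ ≤ h.natDegree := card_roots' h
      _ ≤ p ^ 3 := hdegh
  have hVrank : Module.finrank (ZMod p) V ≤ 3 := by
    have h1 := Module.natCard_eq_pow_finrank (K := ZMod p) (V := V)
    rw [Nat.card_zmod] at h1
    rw [h1] at hVcard
    exact (Nat.pow_le_pow_iff_right hp1).1 hVcard
  let DV : Module.End (ZMod p) V := D.restrict hVD
  have hDV : ∀ (k : ℕ) (x : V), (((DV ^ k) x : V) : E) = (D ^ k) (x : E) := by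
    intro k
    induction k with
    | zero => intro x; simp
    | succ k ih =>
      intro x
      rw [pow_succ', Module.End.mul_apply, pow_succ', Module.End.mul_apply, ← ih]
      rfl
  have hp33 : 3 ≤ p ^ 3 := by
    calc 3 ≤ 2 ^ 3 := by norm_num
      _ ≤ p ^ 3 := Nat.pow_le_pow_left hp.two_le 3
  have hDV3 : DV ^ 3 = 0 := by
    have h1 : DV ^ (p ^ 3) = 0 := by
      ext x
      rw [hDV, hDnil]; simp
    have h2 := Module.End.ker_pow_eq_ker_pow_finrank_of_le (f := DV) (m := p ^ 3)
      (hVrank.trans hp33)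
    have h3 := Module.End.ker_pow_eq_ker_pow_finrank_of_le (f := DV) (m := 3) hVrank
    rw [h1, LinearMap.ker_zero] at h2
    rw [← h2] at h3
    exact LinearMap.ker_eq_top.1 h3
  have hD4 : (D ^ 4) θ = 0 := by
    have hmem : D θ ∈ V := by
      rw [LinearMap.mem_ker]
      change L (σ θ - θ) = 0
      rw [map_sub, hLσ, hLθ, map_neg, hσ, hKq, sub_self]
    have h1 := hDV 3 ⟨D θ, hmem⟩
    rw [hDV3] at h1
    rw [pow_succ, Module.End.mul_apply]
    exact h1.symm
  have hDp2 : (D ^ (p ^ 2)) θ = 0 := by
    have h4 : 4 ≤ p ^ 2 := by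
      calc 4 = 2 ^ 2 := by norm_num
        _ ≤ p ^ 2 := Nat.pow_le_pow_left hp.two_le 2
    obtain ⟨k, hk⟩ := Nat.exists_eq_add_of_le h4
    rw [hk, add_comm, pow_add, Module.End.mul_apply, hD4, map_zero]
  have hfix : θ ^ (Nat.card K ^ (p ^ 2)) = θ := by
    rw [hD, LinearMap.sub_apply, hσk, Module.End.one_apply, sub_eq_zero] at hDp2
    exact hDp2
  have hdvd : g ∣ X ^ (Nat.card K ^ (p ^ 2)) - X := by
    rw [← AdjoinRoot.mk_eq_zero, ← AdjoinRoot.aeval_eq]
    simp only [map_sub, map_pow, aeval_X]
    rw [sub_eq_zero]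
    exact hfix
  have := hg.natDegree_dvd_of_dvd_X_pow_card_pow_sub_X hdvd
  rw [hdeg] at this
  have h5 := (Nat.pow_dvd_pow_iff_le_right hp1).1 this
  omega

/-- `X ^ (p ^ 3) - X + Y ^ p` is irreducible over every field. -/
theorem irreducible_f {K : Type*} [Field K] (p : ℕ) (hp : p.Prime) :
    Irreducible (MvPolynomial.X 0 ^ (p ^ 3) - MvPolynomial.X 0 + MvPolynomial.X 1 ^ p :
      MvPolynomial (Fin 2) K) := by
  let e : MvPolynomial (Fin 2) K ≃ₐ[K] Polynomial (MvPolynomial (Fin 1) K) :=
    (MvPolynomial.renameEquiv K (Equiv.swap (0 : Fin 2) 1)).trans (MvPolynomial.finSuccEquiv K 1)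
  have h0 : e (MvPolynomial.X 0) = C (MvPolynomial.X 0) := by
    simp only [e, AlgEquiv.trans_apply, MvPolynomial.renameEquiv_apply, MvPolynomial.rename_X,
      Equiv.swap_apply_left]
    exact MvPolynomial.finSuccEquiv_X_succ (j := (0 : Fin 1))
  have h1 : e (MvPolynomial.X 1) = X := by
    simp only [e, AlgEquiv.trans_apply, MvPolynomial.renameEquiv_apply, MvPolynomial.rename_X,
      Equiv.swap_apply_right]
    exact MvPolynomial.finSuccEquiv_X_zero
  rw [← MulEquiv.irreducible_iff e.toMulEquiv]
  change Irreducible (e (MvPolynomial.X 0 ^ (p ^ 3) - MvPolynomial.X 0 + MvPolynomial.X 1 ^ p))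
  rw [map_add, map_sub, map_pow, map_pow, h0, h1]
  set t : MvPolynomial (Fin 1) K := MvPolynomial.X 0 with ht
  have htp : Prime t := MvPolynomial.X_prime
  have hp3 : 1 < p ^ 3 := Nat.one_lt_pow (by norm_num) hp.one_lt
  have hform : (C t ^ (p ^ 3) - C t + X ^ p : Polynomial (MvPolynomial (Fin 1) K))
      = X ^ p + C (t ^ (p ^ 3) - t) := by
    rw [C_sub, C_pow]; ring
  rw [hform]
  have hmonic : (X ^ p + C (t ^ (p ^ 3) - t) : Polynomial (MvPolynomial (Fin 1) K)).Monic :=
    monic_X_pow_add_C _ hp.ne_zero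
  have hnat : (X ^ p + C (t ^ (p ^ 3) - t) : Polynomial (MvPolynomial (Fin 1) K)).natDegree = p :=
    natDegree_X_pow_add_C
  have hprime : (Ideal.span {t}).IsPrime := (Ideal.span_singleton_prime htp.ne_zero).2 htp
  refine IsEisensteinAt.irreducible (𝓟 := Ideal.span {t}) ?_ hprime hmonic.isPrimitive
    (by rw [hnat]; exact hp.pos)
  refine ⟨?_, ?_, ?_⟩
  · rw [hmonic.leadingCoeff]
    exact fun h => hprime.ne_top ((Ideal.eq_top_iff_one _).2 h)
  · intro m hm
    rw [hnat] at hm
    rw [coeff_add, coeff_X_pow, if_neg hm.ne, zero_add, coeff_C]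
    split_ifs
    · rw [Ideal.mem_span_singleton]
      exact dvd_sub (dvd_pow_self _ (by omega)) dvd_rfl
    · exact zero_mem _
  · rw [coeff_add, coeff_X_pow, if_neg hp.pos.ne, zero_add, coeff_C_zero, pow_two,
      Ideal.span_singleton_mul_span_singleton, Ideal.mem_span_singleton]
    intro hdvd
    obtain ⟨k, hk⟩ := Nat.exists_eq_add_of_le hp3.le
    have hk0 : k ≠ 0 := by omega
    have h2 : t ^ (p ^ 3) - t = t * (t ^ k - 1) := by rw [hk]; ring
    rw [h2] at hdvd
    have h3 : t ∣ t ^ k - 1 := (mul_dvd_mul_iff_left htp.ne_zero).1 hdvd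
    have h4 : t ∣ 1 := by
      have := dvd_sub (dvd_pow_self t hk0) h3
      simpa using this
    exact htp.not_isUnit (isUnit_of_dvd_one h4)

theorem totalDegree_f {K : Type*} [Field K] (p : ℕ) (hp : p.Prime) :
    (MvPolynomial.X 0 ^ (p ^ 3) - MvPolynomial.X 0 + MvPolynomial.X 1 ^ p :
      MvPolynomial (Fin 2) K).totalDegree = p ^ 3 := by
  have hp1 : 1 < p := hp.one_lt
  have hp3 : p < p ^ 3 := by
    calc p = p ^ 1 := (pow_one p).symm
      _ < p ^ 3 := Nat.pow_lt_pow_right hp1 (by norm_num)
  apply le_antisymm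
  · refine (MvPolynomial.totalDegree_add _ _).trans (max_le ?_ ?_)
    · refine (MvPolynomial.totalDegree_sub _ _).trans (max_le ?_ ?_)
      · rw [MvPolynomial.totalDegree_X_pow]
      · rw [MvPolynomial.totalDegree_X]; omega
    · rw [MvPolynomial.totalDegree_X_pow]; exact hp3.le
  · have h := MvPolynomial.le_totalDegree (p := (MvPolynomial.X 0 ^ (p ^ 3) - MvPolynomial.X 0
      + MvPolynomial.X 1 ^ p : MvPolynomial (Fin 2) K)) (s := Finsupp.single 0 (p ^ 3)) ?_
    · rwa [Finsupp.sum_single_index rfl] at h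
    · rw [MvPolynomial.mem_support_iff, MvPolynomial.coeff_add, MvPolynomial.coeff_sub,
        MvPolynomial.coeff_X_pow, MvPolynomial.coeff_X, MvPolynomial.coeff_X_pow, if_pos rfl,
        if_neg, if_neg]
      · simp
      · intro h
        have := DFunLike.congr_fun h 1
        simp at this
        omega
      · intro h
        have := DFunLike.congr_fun h 0
        simp at this
        omega

/-- **Main result.** For every prime `p` and every `n ≥ 13`, over the field with `q = p ^ n`
elements the (absolutely) irreducible polynomial `f = X ^ (p ^ 3) - X + Y ^ p` of total degree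
`d = p ^ 3`, with `q > d ^ 4`, has the property that `f (a Y + b, Y)` is never irreducible. -/
theorem result (p : ℕ) [Fact p.Prime] (n : ℕ) (hn : 13 ≤ n) :
    Nat.card (GaloisField p n) = p ^ n ∧
    ∃ f : MvPolynomial (Fin 2) (GaloisField p n),
      Irreducible f ∧
      Irreducible (MvPolynomial.map
        (algebraMap (GaloisField p n) (AlgebraicClosure (GaloisField p n))) f) ∧
      f.totalDegree = p ^ 3 ∧
      f.totalDegree ^ 4 < p ^ n ∧
      ∀ a b : GaloisField p n,
        ¬ Irreducible (MvPolynomial.aeval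
          ![Polynomial.C a * Polynomial.X + Polynomial.C b, (Polynomial.X : (GaloisField p n)[X])]
          f) := by
  have hp : p.Prime := Fact.out
  have hcard : Nat.card (GaloisField p n) = p ^ n := GaloisField.card p n (by omega)
  refine ⟨hcard, MvPolynomial.X 0 ^ (p ^ 3) - MvPolynomial.X 0 + MvPolynomial.X 1 ^ p,
    irreducible_f p hp, ?_, totalDegree_f p hp, ?_, ?_⟩
  · have := irreducible_f (K := AlgebraicClosure (GaloisField p n)) p hp
    simpa using this
  · rw [totalDegree_f p hp, ← pow_mul]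
    exact Nat.pow_lt_pow_right hp.one_lt (by omega)
  · intro a b
    have : Finite (GaloisField p n) := Nat.finite_of_card_ne_zero (by
      rw [hcard]; exact pow_ne_zero _ hp.ne_zero)
    have hev : MvPolynomial.aeval
        ![Polynomial.C a * Polynomial.X + Polynomial.C b, (Polynomial.X : (GaloisField p n)[X])]
        (MvPolynomial.X 0 ^ (p ^ 3) - MvPolynomial.X 0 + MvPolynomial.X 1 ^ p :
          MvPolynomial (Fin 2) (GaloisField p n))
        = C (a ^ (p ^ 3)) * X ^ (p ^ 3) + X ^ p - C a * X + C (b ^ (p ^ 3) - b) := by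
      simp only [map_add, map_sub, map_pow, MvPolynomial.aeval_X, Matrix.cons_val_zero,
        Matrix.cons_val_one]
      rw [add_pow_char_pow, mul_pow]
      ring
    rw [hev]
    by_cases ha : a = 0
    · subst ha
      obtain ⟨c, hc⟩ : ∃ c : GaloisField p n, c ^ p = b ^ (p ^ 3) - b := by
        have : Function.Surjective (frobenius (GaloisField p n) p) :=
          Finite.surjective_of_injective (frobenius_inj _ p)
        exact this _
      have h1 : (C ((0 : GaloisField p n) ^ (p ^ 3)) * X ^ (p ^ 3) + X ^ p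
          - C (0 : GaloisField p n) * X + C (b ^ (p ^ 3) - b) : (GaloisField p n)[X])
          = (X + C c) ^ p := by
        rw [add_pow_char, ← C_pow, hc, zero_pow (pow_ne_zero _ hp.ne_zero)]
        simp
      rw [h1]
      exact not_irreducible_pow hp.one_lt.ne'
    · exact affine_not_irreducible p n hcard _ _ _ (pow_ne_zero _ ha)

end Pool.Agent.Results.MP_46a474_nt.AffineCounterexample
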